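import Pool.Agent.helper69.SN.SpecB
import Pool.Agent.helper53.SC.HS2

/-! Row sn:bQUA: quadratic functions and their Hessians. -/

open scoped Pointwise ContDiff
open MeasureTheory Set Filter Topology

set_option linter.unusedVariables false

namespace Pool.Agent.helper69.SN

open Pool.Agent.helper83.SC

theorem bQUA_pr {m : ℕ} (i : Fin m) (v : E m) :
    (EuclideanSpace.proj i : E m →L[ℝ] ℝ) v = v i := rfl

/-- The derivative of a coordinate of `x - y`. -/
theorem bQUA_co {m : ℕ} (y x : E m) (i : Fin m) :
    HasFDerivAt (fun x : E m => (x - y) i) (EuclideanSpace.proj i : E m →L[ℝ] ℝ) x := by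
  have h := (EuclideanSpace.proj i : E m →L[ℝ] ℝ).hasFDerivAt (x := x)
  have h2 : (fun x : E m => (x - y) i)
      = fun x => (EuclideanSpace.proj i : E m →L[ℝ] ℝ) x - y i := by
    funext z
    simp
  rw [h2]
  exact h.sub_const _

/-- The derivative of the quadratic form. -/
theorem bQUA_qf {m : ℕ} (M : Mat m) (y x : E m) :
    HasFDerivAt (fun x : E m => qf M (x - y))
      (∑ i, ∑ j, (((x - y) i * M i j) • (EuclideanSpace.proj j : E m →L[ℝ] ℝ)
        + (x - y) j • (M i j • (EuclideanSpace.proj i : E m →L[ℝ] ℝ)))) x := by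
  unfold qf
  refine HasFDerivAt.fun_sum fun i _ => HasFDerivAt.fun_sum fun j _ => ?_
  exact ((bQUA_co y x i).mul_const (M i j)).mul (bQUA_co y x j)

/-- The linear part. -/
theorem bQUA_in {m : ℕ} (p y x : E m) :
    HasFDerivAt (fun x : E m => (inner ℝ p (x - y) : ℝ)) (innerSL ℝ p : E m →L[ℝ] ℝ) x := by
  have h := (innerSL ℝ p : E m →L[ℝ] ℝ).hasFDerivAt (x := x)
  have h2 : (fun x : E m => (inner ℝ p (x - y) : ℝ))
      = fun x => (innerSL ℝ p : E m →L[ℝ] ℝ) x - inner ℝ p y := by
    funext z
    simp [inner_sub_right]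
  rw [h2]
  exact h.sub_const _

/-- First partial derivatives. -/
theorem bQUA_pd {m : ℕ} (c : ℝ) (p y : E m) (M : Mat m) (hM : M.IsSymm) (k : Fin m) :
    pd k (fun x : E m => c + inner ℝ p (x - y) + 1 / 2 * qf M (x - y))
      = fun x => p k + ∑ j, M k j * (x - y) j := by
  funext x
  unfold pd
  have h := ((bQUA_in p y x).const_add c).add ((bQUA_qf M y x).const_mul (1 / 2 : ℝ))
  have h' : HasFDerivAt (fun x : E m => c + inner ℝ p (x - y) + 1 / 2 * qf M (x - y)) _ x := h
  rw [h'.fderiv]
  have hs : ∀ i j, M i j = M j i := fun i j => by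
    conv_lhs => rw [← hM]
    rfl
  have h1 : ∑ i, ∑ j, ((x - y) i * M i j * (e k : E m) j + (x - y) j * (M i j * (e k : E m) i))
      = 2 * ∑ j, M k j * (x - y) j := by
    simp only [Finset.sum_add_distrib, HS2_e_apply]
    have e1 : ∑ i, ∑ j, (x - y) i * M i j * (if j = k then (1 : ℝ) else 0)
        = ∑ j, M k j * (x - y) j := by
      refine Finset.sum_congr rfl fun i _ => ?_
      rw [Finset.sum_eq_single k]
      · rw [if_pos rfl, mul_one, hs i k, mul_comm]
      · intro b _ hb
        rw [if_neg hb, mul_zero]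
      · intro hk
        exact absurd (Finset.mem_univ k) hk
    have e2 : ∑ i, ∑ j, (x - y) j * (M i j * (if i = k then (1 : ℝ) else 0))
        = ∑ j, M k j * (x - y) j := by
      rw [Finset.sum_eq_single k]
      · refine Finset.sum_congr rfl fun j _ => ?_
        rw [if_pos rfl, mul_one, mul_comm]
      · intro b _ hb
        refine Finset.sum_eq_zero fun j _ => ?_
        rw [if_neg hb, mul_zero, mul_zero]
      · intro hk
        exact absurd (Finset.mem_univ k) hk
    rw [e1, e2]
    ring
  simp only [add_apply, smul_apply,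
    sum_apply, innerSL_apply_apply, smul_eq_mul, bQUA_pr]
  rw [h1, HS2_inner]
  ring

/-- bQUA. Quadratic functions. -/
theorem bQUA : bQUA_stmt := by
  intro m c p y M hM
  refine ⟨?_, ?_⟩
  · have h1 : ∀ i : Fin m, ContDiff ℝ ∞ (fun x : E m => (x - y) i) := by
      intro i
      have h2 : (fun x : E m => (x - y) i)
          = fun x => (EuclideanSpace.proj i : E m →L[ℝ] ℝ) x - y i := by
        funext z
        simp
      rw [h2]
      exact (EuclideanSpace.proj i : E m →L[ℝ] ℝ).contDiff.sub contDiff_const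
    have h3 : ContDiff ℝ ∞ (fun x : E m => (inner ℝ p (x - y) : ℝ)) :=
      contDiff_const.inner ℝ (contDiff_id.sub contDiff_const)
    have h4 : ContDiff ℝ ∞ (fun x : E m => qf M (x - y)) := by
      unfold qf
      exact ContDiff.sum fun i _ => ContDiff.sum fun j _ =>
        ((h1 i).mul contDiff_const).mul (h1 j)
    exact (contDiff_const.add h3).add (contDiff_const.mul h4)
  · intro x
    have hs : ∀ i j, M i j = M j i := fun i j => by
      conv_lhs => rw [← hM]
      rfl
    ext i j
    simp only [hess, Matrix.of_apply]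
    rw [bQUA_pd c p y M hM j]
    unfold pd
    have h := (HasFDerivAt.fun_sum (u := Finset.univ)
      fun k (_ : k ∈ Finset.univ) => (bQUA_co y x k).const_mul (M j k)).const_add (p j)
    rw [h.fderiv]
    simp only [smul_apply, sum_apply, smul_eq_mul,
      bQUA_pr, HS2_e_apply]
    rw [Finset.sum_eq_single i]
    · rw [if_pos rfl, mul_one, hs j i]
    · intro b _ hb
      rw [if_neg hb, mul_zero]
    · intro hk
      exact absurd (Finset.mem_univ i) hk

end Pool.Agent.helper69.SN
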